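import Pool.Agent.Helper81.LT.Comb

/-! The necklace lemma. -/

namespace Pool.Agent.Helper77.LT

open Pool.Agent.Helper81.LT

universe u

variable {Λ : Type u} [Lattice Λ] [BoundedOrder Λ]

theorem level (P : Sp Λ) (y : Λ) :
    ∃ (Q : Type) (c : P.A → Q), ∀ u v, y ≤ P.t u v ↔ c u = c v := by
  let s : Setoid P.A :=
    { r := fun u v => y ≤ P.t u v
      iseqv :=
        { refl := fun u => by rw [P.refl]; exact le_top
          symm := fun {u v} h => by rw [P.symm]; exact h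
          trans := fun {u v w} h k => le_trans (le_inf h k) (P.tri u v w) } }
  exact ⟨Quotient s, Quotient.mk s, fun u v => ⟨fun h => Quotient.sound h,
    fun h => Quotient.exact h⟩⟩

/-- The distance of the necklace. -/
def nt (S P : Sp Λ) (a b : P.A) (p q : S.A) :
    S.A ⊕ (P.A ⊕ (P.A ⊕ P.A)) → S.A ⊕ (P.A ⊕ (P.A ⊕ P.A)) → Λ
  | .inl u, .inl v => S.t u v
  | .inl u, .inr (.inl v) => S.t u p ⊓ P.t a v
  | .inl u, .inr (.inr (.inl v)) => S.t u p ⊓ P.t a b ⊓ P.t v a
  | .inl u, .inr (.inr (.inr v)) => S.t u q ⊓ P.t b v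
  | .inr (.inl v), .inl u => S.t u p ⊓ P.t a v
  | .inr (.inl u), .inr (.inl v) => P.t u v
  | .inr (.inl u), .inr (.inr (.inl v)) => P.t u b ⊓ P.t a v
  | .inr (.inl u), .inr (.inr (.inr v)) => P.t u a ⊓ S.t p q ⊓ P.t b v
  | .inr (.inr (.inl v)), .inl u => S.t u p ⊓ P.t a b ⊓ P.t v a
  | .inr (.inr (.inl v)), .inr (.inl u) => P.t u b ⊓ P.t a v
  | .inr (.inr (.inl u)), .inr (.inr (.inl v)) => P.t u v
  | .inr (.inr (.inl u)), .inr (.inr (.inr v)) => P.t u b ⊓ P.t a v
  | .inr (.inr (.inr v)), .inl u => S.t u q ⊓ P.t b v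
  | .inr (.inr (.inr v)), .inr (.inl u) => P.t u a ⊓ S.t p q ⊓ P.t b v
  | .inr (.inr (.inr v)), .inr (.inr (.inl u)) => P.t u b ⊓ P.t a v
  | .inr (.inr (.inr u)), .inr (.inr (.inr v)) => P.t u v

theorem nt_symm (S P : Sp Λ) (a b : P.A) (p q : S.A) (u v) :
    nt S P a b p q u v = nt S P a b p q v u := by
  rcases u with u | u | u | u <;> rcases v with v | v | v | v <;>
    first
    | rfl
    | exact S.symm _ _
    | exact P.symm _ _

theorem nt_tri (S P : Sp Λ) (a b : P.A) (p q : S.A) (h : P.t a b ≤ S.t p q) (u v w) :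
    nt S P a b p q u v ⊓ nt S P a b p q v w ≤ nt S P a b p q u w := by
  refine le_of_forall_le fun y => ?_
  obtain ⟨Q, c, hc⟩ := level P y
  obtain ⟨R, d, hd⟩ := level S y
  have h' : c a = c b → d p = d q := fun e => (hd p q).1 (le_trans ((hc a b).2 e) h)
  rcases u with u | u | u | u <;> rcases v with v | v | v | v <;>
    rcases w with w | w | w | w <;> simp only [nt, le_inf_iff, hc, hd] <;> grind

theorem neck (Λ : Type u) [Lattice Λ] [BoundedOrder Λ] : NECK Λ := by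
  intro S P a b p q h
  refine ⟨⟨S.A ⊕ (P.A ⊕ (P.A ⊕ P.A)), inferInstance, nt S P a b p q, ?_,
    nt_symm S P a b p q, nt_tri S P a b p q h⟩, Sum.inl, fun u => .inr (.inl u),
    fun u => .inr (.inr (.inl u)), fun u => .inr (.inr (.inr u)), ?_, ?_, ?_, ?_, ?_, ?_, ?_, ?_⟩
  · intro u
    rcases u with u | u | u | u
    · exact S.refl u
    · exact P.refl u
    · exact P.refl u
    · exact P.refl u
  · intro u v; rfl
  · intro u v; exact le_rfl
  · intro u v; exact le_rfl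
  · intro u v; exact le_rfl
  · show S.t p p ⊓ P.t a a = ⊤
    rw [S.refl, P.refl, top_inf_eq]
  · show P.t b b ⊓ P.t a a = ⊤
    rw [P.refl, P.refl, top_inf_eq]
  · show P.t b b ⊓ P.t a a = ⊤
    rw [P.refl, P.refl, top_inf_eq]
  · show S.t q q ⊓ P.t b b = ⊤
    rw [S.refl, P.refl, top_inf_eq]

end Pool.Agent.Helper77.LT
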